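import Pool.Agent.Helper70.KF.Cyc
import Pool.Agent.Helper75.MG.Col
import Pool.Agent.Helper75.MG.Enum

/-!
# Project KF (MP_5a85b5_lc): the Borel homomorphism
-/

set_option autoImplicit false

namespace Pool.Agent.Helper70.KF

open Pool.Agent.Helper75.MG MeasureTheory

variable {N K r : ℕ}

section

variable {X : Type} [MeasurableSpace X] {G : SimpleGraph X} {t : Fin 3 → X → X}
  {l : X → Lt N K}

theorem meas_wt (ht : ∀ i, Measurable (t i)) (hadj : ∀ x y, G.Adj x y ↔ ∃ i, t i x = y)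
    (hl : Measurable l) (w : List (Lt N K)) : MeasurableSet {x | Wt G l w x} := by
  induction w with
  | nil =>
    have h : {x | Wt G l [] x} = Set.univ := Set.eq_univ_of_forall fun x => trivial
    rw [h]
    exact MeasurableSet.univ
  | cons a w ih =>
    have h : {x | Wt G l (a :: w) x} =
        ⋃ i, (t i) ⁻¹' ((l ⁻¹' {a}) ∩ {y | Wt G l w y}) := by
      ext x
      simp only [Set.mem_iUnion, Set.mem_preimage, Set.mem_inter_iff, Set.mem_ofPred_eq,
        Set.mem_singleton_iff]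
      constructor
      · rintro ⟨y, hy, h1, h2⟩
        obtain ⟨i, rfl⟩ := (hadj x y).1 hy
        exact ⟨i, h1, h2⟩
      · rintro ⟨i, h1, h2⟩
        exact ⟨_, (hadj _ _).2 ⟨i, rfl⟩, h1, h2⟩
    rw [h]
    exact MeasurableSet.iUnion fun i => ht i ((hl (measurableSet_singleton a)).inter ih)

theorem meas_lab (ht : ∀ i, Measurable (t i)) (hadj : ∀ x y, G.Adj x y ↔ ∃ i, t i x = y)
    (hl : Measurable l) (s : Lb N K) : MeasurableSet {x | lab G l r x = s} := by
  have h : {x | lab G l r x = s} = (l ⁻¹' {s.1}) ∩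
      ⋂ w : List (Lt N K), {x | (Wt G l w x ∧ Sh r s.1 w) ↔ w ∈ s.2} := by
    ext x
    simp only [Set.mem_inter_iff, Set.mem_iInter, Set.mem_ofPred_eq, Set.mem_preimage,
      Set.mem_singleton_iff]
    constructor
    · rintro rfl
      exact ⟨rfl, fun w => Iff.rfl⟩
    · rintro ⟨h1, h2⟩
      refine Prod.ext h1 (Set.ext fun w => ?_)
      rw [← h2 w, ← h1]
      rfl
  rw [h]
  refine (hl (measurableSet_singleton _)).inter (MeasurableSet.iInter fun w => ?_)
  by_cases hs : Sh r s.1 w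
  · by_cases hw : w ∈ s.2
    · have h1 : {x | (Wt G l w x ∧ Sh r s.1 w) ↔ w ∈ s.2} = {x | Wt G l w x} := by
        ext x
        exact ⟨fun h2 => (h2.2 hw).1, fun h2 => ⟨fun _ => hw, fun _ => ⟨h2, hs⟩⟩⟩
      rw [h1]
      exact meas_wt ht hadj hl w
    · have h1 : {x | (Wt G l w x ∧ Sh r s.1 w) ↔ w ∈ s.2} = {x | Wt G l w x}ᶜ := by
        ext x
        exact ⟨fun h2 h3 => hw (h2.1 ⟨h3, hs⟩), fun h2 => ⟨fun h3 => absurd h3.1 h2,
          fun h3 => absurd h3 hw⟩⟩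
      rw [h1]
      exact (meas_wt ht hadj hl w).compl
  · by_cases hw : w ∈ s.2
    · have h1 : {x | (Wt G l w x ∧ Sh r s.1 w) ↔ w ∈ s.2} = ∅ :=
        Set.eq_empty_of_forall_notMem fun x h2 => hs (h2.2 hw).2
      rw [h1]
      exact MeasurableSet.empty
    · have h1 : {x | (Wt G l w x ∧ Sh r s.1 w) ↔ w ∈ s.2} = Set.univ :=
        Set.eq_univ_of_forall fun x => ⟨fun h3 => absurd h3.2 hs, fun h3 => absurd h3 hw⟩
      rw [h1]
      exact MeasurableSet.univ

end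

/-- the map to the target -/
def fV {X : Type} (G : SimpleGraph X) (l : X → Lt N K) (r : ℕ) (x : X) : Vt N K r :=
  ⟨lab G l r x, fun _ hw => (sh_length hw.2).trans (by
    have := (l x).2.2
    omega)⟩

theorem fV_hom {X : Type} {G : SimpleGraph X} {l : X → Lt N K} (hC : Cfg G l r) {x y : X}
    (h : G.Adj x y) : (Hg N K r).Adj (fV G l r x) (fV G l r y) := by
  rcases lt_or_gt_of_ne (hC.rk x y h) with h1 | h1
  · exact Or.inl (child_of_adj hC h.symm h1)
  · exact Or.inr (child_of_adj hC h h1)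

variable {X : Type} [MeasurableSpace X] [StandardBorelSpace X]

/-- a colouring which separates the different vertices in distance at most `n` -/
theorem exists_sep (G : SimpleGraph X) {t : Fin 3 → X → X} (ht : ∀ i, Measurable (t i))
    (hadj : ∀ x y, G.Adj x y ↔ ∃ i, t i x = y) (n : ℕ) :
    ∃ c : X → Fin (4 ^ n + 1), Measurable c ∧ ∀ x y, Nr G n x y → c x = c y → x = y := by
  obtain ⟨w, hw, hN⟩ := exists_words G t ht hadj n
  have hm := measurableSet_Nr G t ht (fun _ => Set.univ) (fun _ => MeasurableSet.univ)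
    (fun x y => by rw [hadj]; simp) n
  have hd : MeasurableSet (Set.diagonal X) := by
    let _ := upgradeStandardBorel X
    exact isClosed_diagonal.measurableSet
  obtain ⟨c, hc, hcc⟩ := exists_colouring w hw
    ({z : X × X | Nr G n z.1 z.2} \ Set.diagonal X) (hm.diff hd)
    (fun x y h => ⟨h.1.symm, fun h1 => h.2 (Eq.symm h1)⟩) (fun x h => h.2 rfl)
    (fun x y h => (hN x y).1 h.1)
  refine ⟨c, hc, fun x y h hxy => ?_⟩
  by_contra hne
  exact hcc x y ⟨h, hne⟩ hxy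

/-- a maximal `n`-discrete Borel subset of `A` -/
theorem exists_net (G : SimpleGraph X) {t : Fin 3 → X → X} (ht : ∀ i, Measurable (t i))
    (hadj : ∀ x y, G.Adj x y ↔ ∃ i, t i x = y) (n : ℕ) {A : Set X} (hA : MeasurableSet A) :
    ∃ M : Set X, MeasurableSet M ∧ M ⊆ A ∧ (∀ x ∈ M, ∀ y ∈ M, Nr G n x y → x = y) ∧
      ∀ x ∈ A, ∃ y ∈ M, Nr G n x y := by
  obtain ⟨w, hw, hN⟩ := exists_words G t ht hadj n
  have hm := measurableSet_Nr G t ht (fun _ => Set.univ) (fun _ => MeasurableSet.univ)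
    (fun x y => by rw [hadj]; simp) n
  have hd : MeasurableSet (Set.diagonal X) := by
    let _ := upgradeStandardBorel X
    exact isClosed_diagonal.measurableSet
  obtain ⟨M, hM, hMA, hM1, hM2⟩ := exists_mis w hw
    ({z : X × X | Nr G n z.1 z.2} \ Set.diagonal X) (hm.diff hd)
    (fun x y h => ⟨h.1.symm, fun h1 => h.2 (Eq.symm h1)⟩) (fun x h => h.2 rfl)
    (fun x y h => (hN x y).1 h.1) A hA
  refine ⟨M, hM, hMA, fun x hx y hy h => ?_, fun x hx => ?_⟩
  · by_contra hne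
    exact hM1 x hx y hy ⟨h, hne⟩
  · rcases hM2 x hx with h | ⟨y, hy, h⟩
    · exact ⟨x, h, Nr.refl n x⟩
    · exact ⟨y, hy, h.1⟩

omit [StandardBorelSpace X] in
/-- the distance to a set which meets all balls of radius `n` -/
theorem exists_dist (G : SimpleGraph X) {t : Fin 3 → X → X} (ht : ∀ i, Measurable (t i))
    (hadj : ∀ x y, G.Adj x y ↔ ∃ i, t i x = y) (n : ℕ) {M : Set X} (hM : MeasurableSet M)
    (hM2 : ∀ x, ∃ y ∈ M, Nr G n x y) :
    ∃ d : X → ℕ, Measurable d ∧ (∀ x, d x ≤ n) ∧ ∀ x, x ∈ M ∨ ∃ y, G.Adj x y ∧ d y < d x := by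
  classical
  have hp : ∀ x, ∃ m, ∃ y ∈ M, Nr G m x y := fun x => ⟨n, hM2 x⟩
  refine ⟨fun x => Nat.find (hp x), ?_, fun x => Nat.find_min' (hp x) (hM2 x), fun x => ?_⟩
  · refine measurable_find hp fun m => ?_
    obtain ⟨w, hw, hN⟩ := exists_words G t ht hadj m
    have h : {x | ∃ y ∈ M, Nr G m x y} = ⋃ k, (w k) ⁻¹' M := by
      ext x
      simp only [Set.mem_iUnion, Set.mem_preimage, Set.mem_ofPred_eq]
      constructor
      · rintro ⟨y, hy, h⟩
        obtain ⟨k, rfl⟩ := (hN x y).1 h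
        exact ⟨k, hy⟩
      · rintro ⟨k, hk⟩
        exact ⟨_, hk, (hN _ _).2 ⟨k, rfl⟩⟩
    rw [h]
    exact MeasurableSet.iUnion fun k => hw k hM
  · obtain ⟨z, hz, hzn⟩ := Nat.find_spec (hp x)
    rcases Nat.eq_zero_or_pos (Nat.find (hp x)) with h | h
    · left
      rw [h, Nr_zero] at hzn
      rw [hzn]
      exact hz
    · right
      obtain ⟨m, hm⟩ : ∃ m, Nat.find (hp x) = m + 1 := ⟨Nat.find (hp x) - 1, by omega⟩
      rw [hm, Nr_succ] at hzn
      rcases hzn with h1 | ⟨y, hy, h1⟩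
      · have h2 := Nat.find_min' (hp x) ⟨z, hz, h1⟩
        omega
      · refine ⟨y, hy, ?_⟩
        have h2 := Nat.find_min' (hp y) ⟨z, hz, h1⟩
        change Nat.find (hp y) < Nat.find (hp x)
        omega

/-- letters of a Borel cubic graph with all local maxima in `M` -/
theorem exists_letters (G : SimpleGraph X) {t : Fin 3 → X → X} (ht : ∀ i, Measurable (t i))
    (hadj : ∀ x y, G.Adj x y ↔ ∃ i, t i x = y) (r R : ℕ)
    (h4 : ∀ a b c d, G.Adj a b → G.Adj b c → G.Adj c d → G.Adj d a → a ≠ c → b = d)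
    (he : ∀ (x : X) (p : G.Walk x x), p.length ≤ r → Even p.length) {M : Set X}
    (hM : MeasurableSet M) (hM2 : ∀ x, ∃ y ∈ M, Nr G R x y) :
    ∃ l : X → Lt (4 ^ (r + 4) + 1) (5 * R + 4), Measurable l ∧
      Cfg G l r ∧ ∀ x, (∀ z, G.Adj x z → (l z).2 < (l x).2) → x ∈ M := by
  obtain ⟨κ, hκ, hκ1⟩ := exists_sep G ht hadj (r + 4)
  obtain ⟨c, hc, hc1⟩ := exists_sep G ht hadj 1
  obtain ⟨d, hd, hd1, hd2⟩ := exists_dist G ht hadj R hM hM2
  let F : ℕ × Fin (4 ^ 1 + 1) → Fin (5 * R + 4 + 1) := fun q =>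
    ⟨min (5 * (R - q.1) + q.2) (5 * R + 4), by omega⟩
  have hF : ∀ x, ((F (d x, c x) : Fin (5 * R + 4 + 1)) : ℕ) = 5 * (R - d x) + c x := by
    intro x
    have h1 := (c x).2
    have h2 : (4 : ℕ) ^ 1 + 1 = 5 := by norm_num
    simp only [F]
    omega
  have hc5 : ∀ x, (c x : ℕ) < 5 := by
    intro x
    have h1 := (c x).2
    have h2 : (4 : ℕ) ^ 1 + 1 = 5 := by norm_num
    omega
  refine ⟨fun x => (κ x, F (d x, c x)), ?_, ⟨h4, he, ?_, ?_, ?_⟩, ?_⟩
  · have hFm : Measurable F := Measurable.of_discrete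
    exact hκ.prodMk (hFm.comp (hd.prodMk hc))
  · intro x a b c d ha hb hc hd h1 h2 h3 h4 h5 h6
    obtain ⟨i1, rfl⟩ := (hadj _ _).1 ha
    obtain ⟨i2, rfl⟩ := (hadj _ _).1 hb
    obtain ⟨i3, rfl⟩ := (hadj _ _).1 hc
    obtain ⟨i4, rfl⟩ := (hadj _ _).1 hd
    have key : ∀ i1 i2 i3 i4 : Fin 3, i1 = i2 ∨ i1 = i3 ∨ i1 = i4 ∨ i2 = i3 ∨ i2 = i4 ∨
        i3 = i4 := by decide
    rcases key i1 i2 i3 i4 with h | h | h | h | h | h
    · exact h1 (by rw [h])
    · exact h2 (by rw [h])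
    · exact h3 (by rw [h])
    · exact h4 (by rw [h])
    · exact h5 (by rw [h])
    · exact h6 (by rw [h])
  · intro x y h hxy
    exact hκ1 x y h (congrArg Prod.fst hxy)
  · intro x y h hxy
    have h1 : ((F (d x, c x) : Fin (5 * R + 4 + 1)) : ℕ) = F (d y, c y) :=
      congrArg Fin.val hxy
    rw [hF, hF] at h1
    have h2 := hc5 x
    have h3 := hc5 y
    have h4 : c x = c y := Fin.ext (by omega)
    exact h.ne (hc1 x y (Nr.of_adj h) h4)
  · intro x hx
    rcases hd2 x with h | ⟨y, hy, hyd⟩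
    · exact h
    · exfalso
      have h1 : F (d y, c y) < F (d x, c x) := hx y hy
      rw [Fin.lt_def, hF, hF] at h1
      have h2 := hc5 x
      have h3 := hd1 x
      omega

/-- the Borel homomorphism, with the exceptional vertices in a given set `A` -/
theorem main (G : SimpleGraph X) (hG : MeasurableSet {z : X × X | G.Adj z.1 z.2})
    (h3 : ∀ x, (G.neighborSet x).ncard = 3) (r R : ℕ) (hr : 2 ≤ r)
    (h4 : ∀ a b c d, G.Adj a b → G.Adj b c → G.Adj c d → G.Adj d a → a ≠ c → b = d)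
    (he : ∀ (x : X) (p : G.Walk x x), p.length ≤ r → Even p.length) (A : Set X)
    (hA : MeasurableSet A) (hA2 : ∀ x, ∃ y ∈ A, ∃ p : G.Walk x y, p.length ≤ R) :
    ∃ f : X → Vt (4 ^ (r + 4) + 1) (5 * (R + R) + 4) r, (∀ v, MeasurableSet (f ⁻¹' {v})) ∧
      (∀ x y, G.Adj x y → (Hg (4 ^ (r + 4) + 1) (5 * (R + R) + 4) r).Adj (f x) (f y)) ∧
      (∀ x, f x ∈ Ex (4 ^ (r + 4) + 1) (5 * (R + R) + 4) r → x ∈ A) ∧
      ∀ x y, f x ∈ Ex (4 ^ (r + 4) + 1) (5 * (R + R) + 4) r →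
        f y ∈ Ex (4 ^ (r + 4) + 1) (5 * (R + R) + 4) r → x ≠ y →
        ∀ p : G.Walk x y, R < p.length := by
  obtain ⟨t, ht, -, hadj⟩ := exists_enum X G hG h3
  obtain ⟨M, hM, hMA, hM1, hM2⟩ := exists_net G ht hadj R hA
  have hM3 : ∀ x, ∃ y ∈ M, Nr G (R + R) x y := by
    intro x
    obtain ⟨y, hy, hxy⟩ := hA2 x
    obtain ⟨z, hz, hyz⟩ := hM2 y hy
    exact ⟨z, hz, Nr.trans hxy hyz⟩
  obtain ⟨l, hl, hC, hmax⟩ := exists_letters G ht hadj r (R + R) h4 he hM hM3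
  have hE : ∀ x, fV G l r x ∈ Ex (4 ^ (r + 4) + 1) (5 * (R + R) + 4) r → x ∈ M := fun x hx =>
    hmax x ((exL_iff hr x).1 hx)
  refine ⟨fV G l r, fun v => ?_, fun x y h => fV_hom hC h, fun x hx => hMA (hE x hx),
    fun x y hx hy hxy p => ?_⟩
  · have h : fV G l r ⁻¹' {v} = {x | lab G l r x = v.1} := by
      ext x
      exact Subtype.ext_iff
    rw [h]
    exact meas_lab ht hadj hl v.1
  · by_contra hp
    rw [not_lt] at hp
    exact hxy (hM1 x (hE x hx) y (hE y hy) ⟨p, hp⟩)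

end Pool.Agent.Helper70.KF
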