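import Pool.Agent.Helper70.KF.Tar

/-!
# Project KF (MP_5a85b5_lc): short cycles and odd closed walks of the target graph
-/

set_option autoImplicit false

namespace Pool.Agent.Helper70.KF

open Pool.Agent.Helper75.MG (Nr)

variable {N K r : ℕ}

/-- all neighbours are earlier, as a property of labels -/
def ExL (s : Lb N K) : Prop := ∀ b, [b] ∈ s.2 → b.2 < s.1.2

section

variable {X : Type} {G : SimpleGraph X} {l : X → Lt N K}

theorem one_mem (hr : 2 ≤ r) {x y : X} (h : G.Adj x y) : [l y] ∈ (lab G l r x).2 :=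
  ⟨⟨y, h, rfl, trivial⟩, sh_of_le (by
    have := rd_ge (r := r) (l x)
    simp only [List.length_cons, List.length_nil]
    omega)⟩

theorem exL_iff (hr : 2 ≤ r) (x : X) :
    ExL (lab G l r x) ↔ ∀ y, G.Adj x y → (l y).2 < (l x).2 := by
  constructor
  · intro h y hy
    exact h _ (one_mem hr hy)
  · rintro h b ⟨⟨y, hy, rfl, -⟩, -⟩
    exact h y hy

theorem child_mem (hC : Cfg G l r) {x : X} {u u' : Lb N K}
    (hz : ∃ z, G.Adj x z ∧ ¬ (l z).2 < (l x).2) (h1 : Child r u (lab G l r x))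
    (h2 : Child r u' (lab G l r x)) (hne : u ≠ u') {y : X} (hy : G.Adj x y)
    (hyr : (l y).2 < (l x).2) : lab G l r y = u ∨ lab G l r y = u' := by
  obtain ⟨z, hz, hzr⟩ := hz
  obtain ⟨a, ha, har, rfl⟩ := child_real hC h1
  obtain ⟨b, hb, hbr, rfl⟩ := child_real hC h2
  by_contra hcon
  rw [not_or] at hcon
  refine hC.deg x z y a b hz hy ha hb ?_ ?_ ?_ ?_ ?_ ?_
  · rintro rfl
    exact hzr hyr
  · rintro rfl
    exact hzr har
  · rintro rfl
    exact hzr hbr
  · rintro rfl
    exact hcon.1 rfl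
  · rintro rfl
    exact hcon.2 rfl
  · rintro rfl
    exact hne rfl

theorem child_mem3 (hC : Cfg G l r) {x : X} {u1 u2 u3 : Lb N K}
    (h1 : Child r u1 (lab G l r x)) (h2 : Child r u2 (lab G l r x))
    (h3 : Child r u3 (lab G l r x)) (h12 : u1 ≠ u2) (h13 : u1 ≠ u3) (h23 : u2 ≠ u3) {y : X}
    (hy : G.Adj x y) : lab G l r y = u1 ∨ lab G l r y = u2 ∨ lab G l r y = u3 := by
  obtain ⟨a, ha, har, rfl⟩ := child_real hC h1
  obtain ⟨b, hb, hbr, rfl⟩ := child_real hC h2
  obtain ⟨c, hc, hcr, rfl⟩ := child_real hC h3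
  by_contra hcon
  rw [not_or, not_or] at hcon
  refine hC.deg x y a b c hy ha hb hc ?_ ?_ ?_ ?_ ?_ ?_
  · rintro rfl
    exact hcon.1 rfl
  · rintro rfl
    exact hcon.2.1 rfl
  · rintro rfl
    exact hcon.2.2 rfl
  · rintro rfl
    exact h12 rfl
  · rintro rfl
    exact h13 rfl
  · rintro rfl
    exact h23 rfl

end

/-- two parents with two common children are equal or exceptional -/
theorem parents_two (hr : 2 ≤ r) {v v' u u' : Lb N K} (h1 : Child r u v) (h2 : Child r u' v)
    (hne : u ≠ u') (h3 : Child r u v') (h4 : Child r u' v') : v = v' ∨ (ExL v ∧ ExL v') := by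
  obtain ⟨X, X', G, l, G', l', x, x', hC, hC', rfl, rfl, hl, hv⟩ :=
    two_parents hr h1 h2 hne h3 h4
  have hone : ∀ a : Lt N K, [a].length ≤ rd r (l x) := by
    intro a
    have := rd_ge (r := r) (l x)
    simp only [List.length_cons, List.length_nil]
    omega
  by_cases hx : ∀ y, G.Adj x y → (l y).2 < (l x).2
  · right
    refine ⟨(exL_iff hr x).2 hx, (exL_iff hr x').2 fun y' hy' => ?_⟩
    obtain ⟨y, hy, hyl, -⟩ := (hv [l' y'] (hone _)).2 ⟨y', hy', rfl, trivial⟩
    rw [← hyl, ← hl]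
    exact hx y hy
  · left
    have hz : ∃ z, G.Adj x z ∧ ¬ (l z).2 < (l x).2 := by
      by_contra hcon
      apply hx
      intro y hy
      by_contra h5
      exact hcon ⟨y, hy, h5⟩
    have hz' : ∃ z, G'.Adj x' z ∧ ¬ (l' z).2 < (l' x').2 := by
      obtain ⟨z, hz, hzr⟩ := hz
      obtain ⟨y, hy, hyl, -⟩ := (hv [l z] (hone _)).1 ⟨z, hz, rfl, trivial⟩
      refine ⟨y, hy, ?_⟩
      rw [hyl, ← hl]
      exact hzr
    refine lab_eq hl hv ?_ ?_
    · intro y hy hyr
      rcases child_mem hC hz h1 h2 hne hy hyr with h5 | h5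
      · obtain ⟨p, hp, -, hpl⟩ := child_real hC' h3
        exact ⟨p, hp, h5.trans hpl.symm⟩
      · obtain ⟨p, hp, -, hpl⟩ := child_real hC' h4
        exact ⟨p, hp, h5.trans hpl.symm⟩
    · intro y hy hyr
      rcases child_mem hC' hz' h3 h4 hne hy hyr with h5 | h5
      · obtain ⟨p, hp, -, hpl⟩ := child_real hC h1
        exact ⟨p, hp, h5.trans hpl.symm⟩
      · obtain ⟨p, hp, -, hpl⟩ := child_real hC h2
        exact ⟨p, hp, h5.trans hpl.symm⟩

/-- two parents with three common children are equal -/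
theorem parents_three (hr : 2 ≤ r) {v v' u1 u2 u3 : Lb N K} (h1 : Child r u1 v)
    (h2 : Child r u2 v) (h3 : Child r u3 v) (h12 : u1 ≠ u2) (h13 : u1 ≠ u3) (h23 : u2 ≠ u3)
    (h1' : Child r u1 v') (h2' : Child r u2 v') (h3' : Child r u3 v') : v = v' := by
  obtain ⟨X, X', G, l, G', l', x, x', hC, hC', rfl, rfl, hl, hv⟩ :=
    two_parents hr h1 h2 h12 h1' h2'
  refine lab_eq hl hv ?_ ?_
  · intro y hy hyr
    rcases child_mem3 hC h1 h2 h3 h12 h13 h23 hy with h5 | h5 | h5
    · obtain ⟨p, hp, -, hpl⟩ := child_real hC' h1'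
      exact ⟨p, hp, h5.trans hpl.symm⟩
    · obtain ⟨p, hp, -, hpl⟩ := child_real hC' h2'
      exact ⟨p, hp, h5.trans hpl.symm⟩
    · obtain ⟨p, hp, -, hpl⟩ := child_real hC' h3'
      exact ⟨p, hp, h5.trans hpl.symm⟩
  · intro y hy hyr
    rcases child_mem3 hC' h1' h2' h3' h12 h13 h23 hy with h5 | h5 | h5
    · obtain ⟨p, hp, -, hpl⟩ := child_real hC h1
      exact ⟨p, hp, h5.trans hpl.symm⟩
    · obtain ⟨p, hp, -, hpl⟩ := child_real hC h2
      exact ⟨p, hp, h5.trans hpl.symm⟩
    · obtain ⟨p, hp, -, hpl⟩ := child_real hC h3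
      exact ⟨p, hp, h5.trans hpl.symm⟩

/-- a 4-cycle one of whose vertices is later than both neighbours -/
theorem four_aux (hr : 2 ≤ r) {v v' u u' : Lb N K} (h1 : Child r u v) (h2 : Child r u' v)
    (hne : u ≠ u') (hv : v ≠ v') (h3 : Child r u v' ∨ Child r v' u)
    (h4 : Child r u' v' ∨ Child r v' u') : ExL v ∧ ExL v' := by
  obtain ⟨h5, h6⟩ := two_children h1 h2 hne h3 h4
  rcases parents_two hr h1 h2 hne h5 h6 with h7 | h7
  · exact absurd h7 hv
  · exact h7

/-- every 4-cycle has two opposite exceptional vertices -/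
theorem four_cycle (hr : 2 ≤ r) {a b c d : Vt N K r} (hab : (Hg N K r).Adj a b)
    (hbc : (Hg N K r).Adj b c) (hcd : (Hg N K r).Adj c d) (hda : (Hg N K r).Adj d a)
    (hac : a ≠ c) (hbd : b ≠ d) :
    (a ∈ Ex N K r ∧ c ∈ Ex N K r) ∨ (b ∈ Ex N K r ∧ d ∈ Ex N K r) := by
  have hac' : a.1 ≠ c.1 := fun h => hac (Subtype.ext h)
  have hbd' : b.1 ≠ d.1 := fun h => hbd (Subtype.ext h)
  -- `a` later than both neighbours, and so on
  have ka : Child r b.1 a.1 → Child r d.1 a.1 → a ∈ Ex N K r ∧ c ∈ Ex N K r := fun h1 h2 =>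
    four_aux hr h1 h2 hbd' hac' hbc (Or.symm hcd)
  have kc : Child r b.1 c.1 → Child r d.1 c.1 → a ∈ Ex N K r ∧ c ∈ Ex N K r := fun h1 h2 =>
    (four_aux hr h1 h2 hbd' hac'.symm (Or.symm hab) hda).symm
  have kb : Child r a.1 b.1 → Child r c.1 b.1 → b ∈ Ex N K r ∧ d ∈ Ex N K r := fun h1 h2 =>
    four_aux hr h1 h2 hac' hbd' (Or.symm hda) hcd
  have kd : Child r a.1 d.1 → Child r c.1 d.1 → b ∈ Ex N K r ∧ d ∈ Ex N K r := fun h1 h2 =>
    (four_aux hr h1 h2 hac' hbd'.symm hab (Or.symm hbc)).symm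
  rcases hab with h1 | h1
  · -- `a < b`
    rcases hbc with h2 | h2
    · rcases hcd with h3 | h3
      · rcases hda with h4 | h4
        · exact absurd (((h1.lt.trans h2.lt).trans h3.lt).trans h4.lt) (lt_irrefl _)
        · exact Or.inr (kd h4 h3)
      · exact Or.inl (kc h2 h3)
    · exact Or.inr (kb h1 h2)
  · rcases hda with h4 | h4
    · exact Or.inl (ka h1 h4)
    · rcases hcd with h3 | h3
      · exact Or.inr (kd h4 h3)
      · rcases hbc with h2 | h2
        · exact Or.inl (kc h2 h3)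
        · exact absurd (((h4.lt.trans h3.lt).trans h2.lt).trans h1.lt) (lt_irrefl _)

/-- exceptional vertices are not adjacent -/
theorem ex_indep (hr : 2 ≤ r) {a b : Vt N K r} (h : (Hg N K r).Adj a b) (ha : a ∈ Ex N K r) :
    b ∉ Ex N K r := by
  have key : ∀ s t : Lb N K, Child r s t → ¬ ExL s := by
    rintro s t ⟨X, G, l, hC, x, y, hxy, hrk, rfl, rfl⟩ hs
    exact absurd (((exL_iff hr y).1 hs x hxy.symm).trans hrk) (lt_irrefl _)
  rcases h with h | h
  · exact absurd ha (key _ _ h)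
  · exact key _ _ h

theorem k33_aux (hr : 2 ≤ r) {v v' : Lb N K} (b : Fin 3 → Vt N K r)
    (hb : Function.Injective b) (hv : v ≠ v') (h : ∀ j, Child r (b j).1 v)
    (h' : ∀ j, Child r (b j).1 v' ∨ Child r v' (b j).1) : False := by
  have hne : ∀ i j, i ≠ j → (b i).1 ≠ (b j).1 := fun i j hij h1 =>
    hij (hb (Subtype.ext h1))
  have h5 := two_children (h 0) (h 1) (hne 0 1 (by decide)) (h' 0) (h' 1)
  have h6 := two_children (h 0) (h 2) (hne 0 2 (by decide)) (h' 0) (h' 2)
  exact hv (parents_three hr (h 0) (h 1) (h 2) (hne 0 1 (by decide)) (hne 0 2 (by decide))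
    (hne 1 2 (by decide)) h5.1 h5.2 h6.2)

/-- the target graph has no `K_{3,3}` -/
theorem no_k33 (hr : 2 ≤ r) (a b : Fin 3 → Vt N K r) (ha : Function.Injective a)
    (hb : Function.Injective b) : ¬ ∀ i j, (Hg N K r).Adj (a i) (b j) := by
  intro hab
  obtain ⟨i, hi⟩ := Finite.exists_max fun i => (a i).1.1.2
  obtain ⟨j, hj⟩ := Finite.exists_max fun j => (b j).1.1.2
  obtain ⟨i', hi''⟩ := exists_ne i
  have hi' := hi''.symm
  obtain ⟨j', hj''⟩ := exists_ne j
  have hj' := hj''.symm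
  rcases hab i j with h | h
  · -- `b j` is the latest
    refine k33_aux hr (v := (b j).1) (v' := (b j').1) a ha
      (fun h1 => hj' (hb (Subtype.ext h1))) (fun k => ?_) (fun k => hab k j')
    rcases hab k j with h1 | h1
    · exact h1
    · exact absurd ((h1.lt.trans_le (hi k)).trans h.lt) (lt_irrefl _)
  · refine k33_aux hr (v := (a i).1) (v' := (a i').1) b hb
      (fun h1 => hi' (ha (Subtype.ext h1))) (fun k => ?_) (fun k => (hab i' k).symm)
    rcases hab i k with h1 | h1
    · exact absurd ((h1.lt.trans_le (hj k)).trans h.lt) (lt_irrefl _)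
    · exact h1

/-- the letters along a walk, without the first -/
def word : ∀ {s t : Vt N K r}, (Hg N K r).Walk s t → List (Lt N K)
  | _, _, .nil => []
  | _, _, .cons (v := s') _ q => s'.1.1 :: word q

theorem word_length : ∀ {s t : Vt N K r} (p : (Hg N K r).Walk s t), (word p).length = p.length
  | _, _, .nil => rfl
  | _, _, .cons _ q => by
    rw [word, List.length_cons, SimpleGraph.Walk.length_cons, word_length q]

theorem word_last : ∀ {s t : Vt N K r} (p : (Hg N K r).Walk s t),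
    (s.1.1 :: word p).getLast (List.cons_ne_nil _ _) = t.1.1
  | _, _, .nil => rfl
  | _, _, .cons _ q => by
    have h := word_last q
    simpa only [word, List.getLast_cons_cons] using h

theorem word_real : ∀ {s t : Vt N K r} (p : (Hg N K r).Walk s t), p.length ≤ r →
    ∀ {X : Type} {G : SimpleGraph X} {l : X → Lt N K}, Cfg G l r → ∀ x, lab G l r x = s.1 →
      Wt G l (word p) x
  | _, _, .nil => fun _ _ _ _ _ _ _ => trivial
  | s, _, .cons (v := s') h q => fun hp X G l hC x hx => by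
    rw [SimpleGraph.Walk.length_cons] at hp
    have hq : q.length ≤ r := by omega
    rcases h with h | h
    · obtain ⟨X', G', l', hC', x', y', hxy, hrk, hyl, hxl⟩ := h
      have h1 := word_real q hq hC' x' hxl
      have h2 : Wt G' l' (s'.1.1 :: word q) y' := by
        refine ⟨x', hxy.symm, ?_, h1⟩
        rw [← hxl]
        rfl
      refine (lab_eq_wt (hyl.trans hx.symm) (sh_of_le ?_)).1 h2
      have h3 := rd_ge (r := r) (l' y')
      rw [word_length, SimpleGraph.Walk.length_cons]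
      omega
    · rw [← hx] at h
      obtain ⟨y, hy, -, hyl⟩ := child_real hC h
      refine ⟨y, hy, ?_, word_real q hq hC y hyl⟩
      rw [← hyl]
      rfl

theorem wt_walk {X : Type} {G : SimpleGraph X} {l : X → Lt N K} (w : List (Lt N K)) (x : X)
    (h : Wt G l w x) : ∃ (z : X) (p : G.Walk x z), p.length = w.length ∧
      l z = (l x :: w).getLast (List.cons_ne_nil _ _) := by
  induction w generalizing x with
  | nil => exact ⟨x, .nil, rfl, rfl⟩
  | cons a w ih =>
    obtain ⟨y, hy, rfl, hw⟩ := h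
    obtain ⟨z, p, hp, hz⟩ := ih y hw
    refine ⟨z, .cons hy p, ?_, ?_⟩
    · rw [SimpleGraph.Walk.length_cons, hp, List.length_cons]
    · rw [hz, List.getLast_cons_cons]

/-- short closed walks have even length -/
theorem no_odd (s : Vt N K r) (p : (Hg N K r).Walk s s) (hp : p.length ≤ r) :
    Even p.length := by
  cases p with
  | nil => exact ⟨0, rfl⟩
  | cons h q =>
    obtain ⟨X, G, l, hC, x, hx⟩ : ∃ (X : Type) (G : SimpleGraph X) (l : X → Lt N K),
        Cfg G l r ∧ ∃ x, lab G l r x = s.1 := by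
      rcases h with ⟨X, G, l, hC, x, y, -, -, h1, h2⟩ | ⟨X, G, l, hC, x, y, -, -, h1, h2⟩
      · exact ⟨X, G, l, hC, y, h1⟩
      · exact ⟨X, G, l, hC, x, h2⟩
    obtain ⟨z, p', hp', hz⟩ := wt_walk _ _ (word_real (.cons h q) hp hC x hx)
    rw [word_length] at hp'
    have h1 : (l x :: word (.cons h q)).getLast (List.cons_ne_nil _ _) = s.1.1 := by
      have h2 := word_last (.cons h q)
      have h3 : l x = s.1.1 := congrArg Prod.fst hx
      simp only [h3]
      exact h2
    have h4 : x = z := by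
      refine hC.inj x z ⟨p', by omega⟩ ?_
      rw [hz, h1]
      exact congrArg Prod.fst hx
    subst h4
    rw [← hp'] at hp ⊢
    exact hC.even x p' hp

end Pool.Agent.Helper70.KF
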