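import Pool.Agent.Helper75.MG.Words

/-!
# Project KF (MP_5a85b5_lc): labels of the vertices of a forest and the target graph

A vertex `x` has a letter `l x` (a colour and a rank; adjacent vertices have different ranks).
Its label consists of its letter and of all words of letters of walks from `x` which first descend
in rank to some vertex `z` and then make at most `r + K - rank z` steps.
-/

set_option autoImplicit false

namespace Pool.Agent.Helper70.KF

open Pool.Agent.Helper75.MG (Nr)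

/-- letters: a colour and a rank -/
abbrev Lt (N K : ℕ) : Type := Fin N × Fin (K + 1)

/-- labels: a letter and a set of words -/
abbrev Lb (N K : ℕ) : Type := Lt N K × Set (List (Lt N K))

variable {N K r : ℕ}

/-- `w` is the word of the letters (of all vertices but the first) of a walk from `x` -/
def Wt {X : Type} (G : SimpleGraph X) (l : X → Lt N K) : List (Lt N K) → X → Prop
  | [], _ => True
  | a :: w, x => ∃ y, G.Adj x y ∧ l y = a ∧ Wt G l w y

/-- the number of free steps after a letter -/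
def rd (r : ℕ) (a : Lt N K) : ℕ := r + (K - a.2)

/-- the shape of the words: they descend in rank and then have at most `rd` further letters -/
def Sh (r : ℕ) : Lt N K → List (Lt N K) → Prop
  | _, [] => True
  | a, b :: w => (b :: w).length ≤ rd r a ∨ (b.2 < a.2 ∧ Sh r b w)

/-- the label of a vertex -/
def lab {X : Type} (G : SimpleGraph X) (l : X → Lt N K) (r : ℕ) (x : X) : Lb N K :=
  (l x, {w | Wt G l w x ∧ Sh r (l x) w})

/-- graphs without 4-cycles and short odd closed walks, with at most three neighbours and with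
letters that are locally injective -/
structure Cfg {X : Type} (G : SimpleGraph X) (l : X → Lt N K) (r : ℕ) : Prop where
  c4 : ∀ a b c d, G.Adj a b → G.Adj b c → G.Adj c d → G.Adj d a → a ≠ c → b = d
  even : ∀ (x : X) (p : G.Walk x x), p.length ≤ r → Even p.length
  deg : ∀ x a b c d, G.Adj x a → G.Adj x b → G.Adj x c → G.Adj x d → a ≠ b → a ≠ c → a ≠ d →
    b ≠ c → b ≠ d → c ≠ d → False
  inj : ∀ x y, Nr G (r + 4) x y → l x = l y → x = y
  rk : ∀ x y, G.Adj x y → (l x).2 ≠ (l y).2

/-- `s` is the label of an earlier neighbour of a vertex with label `t` -/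
def Child (r : ℕ) (s t : Lb N K) : Prop :=
  ∃ (X : Type) (G : SimpleGraph X) (l : X → Lt N K), Cfg G l r ∧
    ∃ x y, G.Adj x y ∧ (l y).2 < (l x).2 ∧ lab G l r y = s ∧ lab G l r x = t

theorem Child.lt {s t : Lb N K} (h : Child r s t) : s.1.2 < t.1.2 := by
  obtain ⟨X, G, l, -, x, y, -, h1, rfl, rfl⟩ := h
  exact h1

theorem sh_of_le {a : Lt N K} {w : List (Lt N K)} (h : w.length ≤ rd r a) : Sh r a w := by
  cases w with
  | nil => trivial
  | cons b w => exact Or.inl h

theorem sh_length {a : Lt N K} {w : List (Lt N K)} (h : Sh r a w) :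
    w.length ≤ r + K + a.2 := by
  induction w generalizing a with
  | nil => simp
  | cons b w ih =>
    rcases h with h | ⟨h1, h2⟩
    · unfold rd at h
      omega
    · have h3 := ih h2
      have h4 : (b.2 : ℕ) < a.2 := h1
      rw [List.length_cons]
      omega

theorem rd_ge (a : Lt N K) : r ≤ rd r a := by
  unfold rd
  omega

theorem rd_lt {a b : Lt N K} (h : b.2 < a.2) : rd r a + 1 ≤ rd r b := by
  have h1 : (b.2 : ℕ) < a.2 := h
  have h2 : (a.2 : ℕ) ≤ K := by omega
  unfold rd
  omega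

section

variable {X : Type} {G : SimpleGraph X} {l : X → Lt N K}

theorem nr2 {n : ℕ} {a b c : X} (h1 : G.Adj a b) (h2 : G.Adj b c) : Nr G (n + 2) a c :=
  ⟨.cons h1 (.cons h2 .nil), by simp⟩

theorem nr4 {n : ℕ} {a b c d e : X} (h1 : G.Adj a b) (h2 : G.Adj b c) (h3 : G.Adj c d)
    (h4 : G.Adj d e) : Nr G (n + 4) a e :=
  ⟨.cons h1 (.cons h2 (.cons h3 (.cons h4 .nil))), by simp⟩

/-- two neighbours of a vertex with the same letter are equal -/
theorem Cfg.nbr (h : Cfg G l r) {x a b : X} (ha : G.Adj x a) (hb : G.Adj x b)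
    (hab : l a = l b) : a = b :=
  h.inj a b ⟨.cons ha.symm (.cons hb .nil), by simp⟩ hab

theorem wt_cons_iff (h : Cfg G l r) {x y : X} (hxy : G.Adj x y) (w : List (Lt N K)) :
    Wt G l (l y :: w) x ↔ Wt G l w y := by
  constructor
  · rintro ⟨z, hz, hzl, hw⟩
    rw [h.nbr hz hxy hzl] at hw
    exact hw
  · intro hw
    exact ⟨y, hxy, rfl, hw⟩

/-- the label of a vertex determines the labels of the earlier neighbours -/
theorem child_real (h : Cfg G l r) {x : X} {s : Lb N K} (hs : Child r s (lab G l r x)) :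
    ∃ y, G.Adj x y ∧ (l y).2 < (l x).2 ∧ lab G l r y = s := by
  obtain ⟨X', G', l', h', x', y', hxy', hr', rfl, heq⟩ := hs
  have hl : l' x' = l x := congrArg Prod.fst heq
  have hset : ∀ w, (Wt G' l' w x' ∧ Sh r (l' x') w) ↔ (Wt G l w x ∧ Sh r (l x) w) := by
    intro w
    have h1 := congrArg Prod.snd heq
    exact Set.ext_iff.1 h1 w
  have hsh : ∀ w, Sh r (l' y') w → Sh r (l x) (l' y' :: w) := by
    intro w hw
    right
    rw [← hl]
    exact ⟨hr', hw⟩
  obtain ⟨y, hxy, hly, -⟩ : Wt G l [l' y'] x := by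
    refine ((hset [l' y']).1 ⟨⟨y', hxy', rfl, trivial⟩, ?_⟩).1
    rw [hl]
    exact hsh [] trivial
  have hr : (l y).2 < (l x).2 := by
    rw [hly, ← hl]
    exact hr'
  refine ⟨y, hxy, hr, ?_⟩
  unfold lab
  rw [hly]
  congr 1
  ext w
  constructor
  · rintro ⟨h1, h2⟩
    refine ⟨?_, h2⟩
    have h3 : Wt G l (l' y' :: w) x := by
      rw [← hly]
      exact (wt_cons_iff h hxy w).2 h1
    have h4 := ((hset (l' y' :: w)).2 ⟨h3, hsh w h2⟩).1
    exact (wt_cons_iff h' hxy' w).1 h4
  · rintro ⟨h1, h2⟩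
    refine ⟨?_, h2⟩
    have h3 : Wt G' l' (l' y' :: w) x' := (wt_cons_iff h' hxy' w).2 h1
    have h4 := ((hset (l' y' :: w)).1 ⟨h3, by rw [hl]; exact hsh w h2⟩).1
    rw [← hly] at h4
    exact (wt_cons_iff h hxy w).1 h4

theorem child_of_adj (h : Cfg G l r) {x y : X} (hxy : G.Adj x y) (hr : (l y).2 < (l x).2) :
    Child r (lab G l r y) (lab G l r x) :=
  ⟨X, G, l, h, x, y, hxy, hr, rfl, rfl⟩

end

section

variable {X X' : Type} {G : SimpleGraph X} {l : X → Lt N K} {G' : SimpleGraph X'}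
  {l' : X' → Lt N K}

theorem lab_eq_wt {x : X} {x' : X'} (heq : lab G l r x = lab G' l' r x') {w : List (Lt N K)}
    (hs : Sh r (l x) w) : Wt G l w x ↔ Wt G' l' w x' := by
  have hl : l x = l' x' := congrArg Prod.fst heq
  have h1 := Set.ext_iff.1 (congrArg Prod.snd heq) w
  constructor
  · intro h
    exact (h1.1 ⟨h, hs⟩).1
  · intro h
    exact (h1.2 ⟨h, by rw [← hl]; exact hs⟩).1

/-- the labels of two earlier neighbours determine the letter -/
theorem letter_eq (hr : 2 ≤ r) (h' : Cfg G' l' r) {x y1 y2 : X}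
    {x' y1' y2' : X'} (hx1 : G.Adj x y1) (hx2 : G.Adj x y2) (hx1' : G'.Adj x' y1')
    (hx2' : G'.Adj x' y2') (hne' : y1' ≠ y2') (e1 : lab G l r y1 = lab G' l' r y1')
    (e2 : lab G l r y2 = lab G' l' r y2') : l x = l' x' := by
  have hl2 : l y2 = l' y2' := congrArg Prod.fst e2
  have h1 : Wt G l [l x, l y2] y1 := ⟨x, hx1.symm, rfl, y2, hx2, rfl, trivial⟩
  have hs : Sh r (l y1) [l x, l y2] := sh_of_le (hr.trans (rd_ge _))
  obtain ⟨z, hz, hzl, p, hp, hpl, -⟩ := (lab_eq_wt e1 hs).1 h1
  have hpy : p = y2' := h'.inj p y2' (nr4 hp.symm hz.symm hx1'.symm hx2') (hpl.trans hl2)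
  subst hpy
  have hzx : z = x' := h'.c4 y1' z p x' hz hp hx2'.symm hx1' hne'
  rw [← hzl, hzx]

/-- the label of an earlier neighbour determines the view -/
theorem view_of (h' : Cfg G' l' r) {x y1 : X} {x' y1' : X'}
    (hx1 : G.Adj x y1) (hx1' : G'.Adj x' y1') (hrk : (l y1).2 < (l x).2)
    (e1 : lab G l r y1 = lab G' l' r y1') (hl : l x = l' x') {w : List (Lt N K)}
    (hw : w.length ≤ rd r (l x)) (h : Wt G l w x) : Wt G' l' w x' := by
  have hs : Sh r (l y1) (l x :: w) := by
    apply sh_of_le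
    rw [List.length_cons]
    exact (Nat.succ_le_succ hw).trans (rd_lt hrk)
  have h1 := (lab_eq_wt e1 hs).1 ⟨x, hx1.symm, rfl, h⟩
  rw [hl] at h1
  exact (wt_cons_iff h' hx1'.symm w).1 h1

/-- the view and the labels of the earlier neighbours determine the label -/
theorem lab_sub {x : X} {x' : X'}
    (hv : ∀ w, w.length ≤ rd r (l x) → Wt G l w x → Wt G' l' w x')
    (hc : ∀ y, G.Adj x y → (l y).2 < (l x).2 → ∃ y', G'.Adj x' y' ∧
      lab G l r y = lab G' l' r y') {w : List (Lt N K)} (hs : Sh r (l x) w) (h : Wt G l w x) :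
    Wt G' l' w x' := by
  cases w with
  | nil => trivial
  | cons b w =>
    rcases hs with hs | ⟨h1, h2⟩
    · exact hv _ hs h
    · obtain ⟨y, hxy, hyl, hw⟩ := h
      subst hyl
      obtain ⟨y', hxy', e⟩ := hc y hxy h1
      refine ⟨y', hxy', (congrArg Prod.fst e).symm, ?_⟩
      exact (lab_eq_wt e h2).1 hw

theorem lab_eq {x : X} {x' : X'} (hl : l x = l' x')
    (hv : ∀ w, w.length ≤ rd r (l x) → (Wt G l w x ↔ Wt G' l' w x'))
    (hc : ∀ y, G.Adj x y → (l y).2 < (l x).2 → ∃ y', G'.Adj x' y' ∧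
      lab G l r y = lab G' l' r y')
    (hc' : ∀ y', G'.Adj x' y' → (l' y').2 < (l' x').2 → ∃ y, G.Adj x y ∧
      lab G' l' r y' = lab G l r y) : lab G l r x = lab G' l' r x' := by
  unfold lab
  rw [hl]
  congr 1
  ext w
  constructor
  · rintro ⟨h1, h2⟩
    exact ⟨lab_sub (fun w h => (hv w h).1) hc (by rw [hl]; exact h2) h1, h2⟩
  · rintro ⟨h1, h2⟩
    exact ⟨lab_sub (fun w h => (hv w (by rw [hl]; exact h)).2) hc' h2 h1, h2⟩

end

end Pool.Agent.Helper70.KF
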