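import Pool.Agent.Helper70.KF.Lab

/-!
# Project KF (MP_5a85b5_lc): the target graph and its short cycles
-/

set_option autoImplicit false

namespace Pool.Agent.Helper70.KF

open Pool.Agent.Helper75.MG (Nr)

variable {N K r : ℕ}

/-- the vertices of the target graph: labels with words of bounded length -/
abbrev Vt (N K r : ℕ) : Type := {s : Lb N K // ∀ w ∈ s.2, w.length ≤ r + K + K}

/-- the target graph -/
def Hg (N K r : ℕ) : SimpleGraph (Vt N K r) where
  Adj s t := Child r s.1 t.1 ∨ Child r t.1 s.1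
  symm := ⟨fun _ _ h => h.symm⟩
  loopless := ⟨fun s h => by
    rcases h with h | h <;> exact absurd h.lt (lt_irrefl _)⟩

/-- the exceptional set: all neighbours of the vertex are earlier -/
def Ex (N K r : ℕ) : Set (Vt N K r) := {s | ∀ b, [b] ∈ s.1.2 → b.2 < s.1.1.2}

theorem finite_Vt (N K r : ℕ) : Finite (Vt N K r) := by
  have h1 : {w : List (Lt N K) | w.length ≤ r + K + K}.Finite := List.finite_length_le _ _
  have h2 : {t : Set (List (Lt N K)) | t ⊆ {w | w.length ≤ r + K + K}}.Finite :=
    h1.finite_subsets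
  have h3 : ((Set.univ : Set (Lt N K)) ×ˢ
      {t : Set (List (Lt N K)) | t ⊆ {w | w.length ≤ r + K + K}}).Finite :=
    Set.finite_univ.prod h2
  have h4 : {s : Lb N K | ∀ w ∈ s.2, w.length ≤ r + K + K} ⊆ (Set.univ : Set (Lt N K)) ×ˢ
      {t : Set (List (Lt N K)) | t ⊆ {w | w.length ≤ r + K + K}} := by
    intro s hs
    rw [Set.mem_prod]
    exact ⟨trivial, fun w hw => hs w hw⟩
  exact (h3.subset h4).to_subtype

/-- Two different children of `v`, both adjacent to `v'`, are children of `v'`, or `v' = v`. -/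
theorem two_children {v v' u u' : Lb N K} (h1 : Child r u v) (h2 : Child r u' v) (hne : u ≠ u')
    (h3 : Child r u v' ∨ Child r v' u) (h4 : Child r u' v' ∨ Child r v' u') :
    Child r u v' ∧ Child r u' v' := by
  obtain ⟨X, G, l, hC, x, y, hxy, hr, rfl, rfl⟩ := h1
  obtain ⟨y', hxy', hr', rfl⟩ := child_real hC h2
  have hyy : y ≠ y' := fun h => hne (by rw [h])
  -- a vertex between `y` and `y'` is `x`
  have key : ∀ z, G.Adj y z → G.Adj z y' → z = x := fun z h5 h6 =>
    hC.c4 y z y' x h5 h6 hxy'.symm hxy hyy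
  rcases h3 with h3 | h3
  · rcases h4 with h4 | h4
    · exact ⟨h3, h4⟩
    · exfalso
      obtain ⟨z, hz, hzr, rfl⟩ := child_real hC h4
      obtain ⟨p, hp, hpr, hpl⟩ := child_real hC h3
      have h5 : p = y := by
        refine hC.inj p y (nr4 hp.symm hz.symm hxy'.symm hxy) ?_
        exact congrArg Prod.fst hpl
      subst h5
      rw [key z hp.symm hz.symm] at hzr
      exact absurd (hzr.trans hr') (lt_irrefl _)
  · exfalso
    obtain ⟨z, hz, hzr, rfl⟩ := child_real hC h3
    have hzx : z ≠ x := fun h => by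
      rw [h] at hzr
      exact absurd (hzr.trans hr) (lt_irrefl _)
    rcases h4 with h4 | h4
    · obtain ⟨p, hp, hpr, hpl⟩ := child_real hC h4
      have h5 : p = y' := by
        refine hC.inj p y' (nr4 hp.symm hz.symm hxy.symm hxy') ?_
        exact congrArg Prod.fst hpl
      subst h5
      exact hzx (key z hz hp)
    · obtain ⟨z', hz', hzr', hzl'⟩ := child_real hC h4
      have h5 : z' = z := by
        refine hC.inj z' z (nr4 hz'.symm hxy'.symm hxy hz) ?_
        exact congrArg Prod.fst hzl'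
      subst h5
      exact hzx (key z' hz hz'.symm)

/-- Common realisation of the data at two parents with two common children. -/
theorem two_parents (hr : 2 ≤ r) {v v' u u' : Lb N K} (h1 : Child r u v) (h2 : Child r u' v)
    (hne : u ≠ u') (h3 : Child r u v') (h4 : Child r u' v') :
    ∃ (X X' : Type) (G : SimpleGraph X) (l : X → Lt N K) (G' : SimpleGraph X') (l' : X' → Lt N K)
      (x : X) (x' : X'), Cfg G l r ∧ Cfg G' l' r ∧ lab G l r x = v ∧ lab G' l' r x' = v' ∧
      l x = l' x' ∧ ∀ w, w.length ≤ rd r (l x) → (Wt G l w x ↔ Wt G' l' w x') := by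
  obtain ⟨X, G, l, hC, x, y, hxy, hrk, hyl, hxl⟩ := h1
  obtain ⟨X', G', l', hC', x', y', hxy', hrk', hyl', hxl'⟩ := h3
  subst hxl
  subst hxl'
  obtain ⟨z, hxz, hzr, hzl⟩ := child_real hC h2
  obtain ⟨z', hxz', hzr', hzl'⟩ := child_real hC' h4
  have hyz : y ≠ z := by
    rintro rfl
    exact hne (hyl.symm.trans hzl)
  have hyz' : y' ≠ z' := by
    rintro rfl
    exact hne (hyl'.symm.trans hzl')
  have hl := letter_eq hr hC' hxy hxz hxy' hxz' hyz' (hyl.trans hyl'.symm) (hzl.trans hzl'.symm)
  refine ⟨X, X', G, l, G', l', x, x', hC, hC', rfl, rfl, hl, fun w hw => ⟨?_, ?_⟩⟩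
  · exact view_of hC' hxy hxy' hrk (hyl.trans hyl'.symm) hl hw
  · exact view_of hC hxy' hxy hrk' (hyl'.trans hyl.symm) hl.symm (by rw [← hl]; exact hw)

end Pool.Agent.Helper70.KF
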